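import Mathlib

/-!
Definitions for the continuous-time random walk on a directed Cayley multigraph.
-/

namespace Pool.Agent.Lib.MP_d87a8f_pr

/-- The Poisson probability mass function with mean `s`. -/
noncomputable def poisson (s : ℝ) (j : ℕ) : ℝ := Real.exp (-s) * s ^ j / (j.factorial : ℝ)

/-- The entropy (natural logarithm) of the Poisson law with mean `s`. -/
noncomputable def poissonEntropy (s : ℝ) : ℝ := ∑' j : ℕ, -(poisson s j * Real.log (poisson s j))

/-- The law at time `t` of the rate one walk started at the identity which at each jump multiplies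
on the right by a uniformly chosen generator `Z i`: the number of jumps is Poisson with mean `t`. -/
noncomputable def walkLaw {G : Type} [Group G] [DecidableEq G] {k : ℕ} (Z : Fin k → G) (t : ℝ)
    (g : G) : ℝ :=
  ∑' l : ℕ, poisson t l *
    (((Finset.univ.filter (fun w : Fin l → Fin k => (List.ofFn (fun j => Z (w j))).prod = g)).card
      : ℝ) / (k : ℝ) ^ l)

/-- Total variation distance between the law of the walk at time `t` and the uniform law. -/
noncomputable def tvDist {G : Type} [Group G] [Fintype G] [DecidableEq G] {k : ℕ} (Z : Fin k → G)
    (t : ℝ) : ℝ :=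
  (1 / 2) * ∑ g : G, |walkLaw Z t g - 1 / (Fintype.card G : ℝ)|

end Pool.Agent.Lib.MP_d87a8f_pr
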