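import Mathlib
import Pool.Agent.Lib.MP_d87a8f_pr.Defs

-- part Pool.Agent.Lib.MP_d87a8f_pr.Basic
section

/-!
Poisson estimates, the entropic time, and the counting bound in dihedral groups.
-/

open Finset Filter Topology

namespace Pool.Agent.Lib.MP_d87a8f_pr

lemma poisson_nonneg {s : ℝ} (hs : 0 ≤ s) (j : ℕ) : 0 ≤ poisson s j := by
  unfold poisson
  positivity

lemma hasSum_poisson {s : ℝ} (hs : 0 ≤ s) : HasSum (poisson s) 1 :=
  ProbabilityTheory.hasSum_one_poissonMeasure ⟨s, hs⟩

lemma poisson_succ (s : ℝ) (j : ℕ) : ((j + 1 : ℕ) : ℝ) * poisson s (j + 1) = s * poisson s j := by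
  unfold poisson
  rw [Nat.factorial_succ]
  push_cast
  field_simp
  ring

lemma hasSum_mean {s : ℝ} (hs : 0 ≤ s) : HasSum (fun j : ℕ => (j : ℝ) * poisson s j) s := by
  rw [← hasSum_nat_add_iff' 1]
  simp only [poisson_succ]
  simpa using (hasSum_poisson hs).mul_left s

/-- Markov's inequality for the Poisson law. -/
lemma poisson_head {s : ℝ} (hs : 0 ≤ s) (L : ℕ) :
    1 - s / (L + 1) ≤ ∑ j ∈ range (L + 1), poisson s j := by
  have hL : (0 : ℝ) < L + 1 := by positivity
  have h1 : HasSum (fun j : ℕ => poisson s j - (j : ℝ) * poisson s j / (L + 1))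
      (1 - s / (L + 1)) := (hasSum_poisson hs).sub ((hasSum_mean hs).div_const _)
  have h2 : HasSum (fun j : ℕ => if j ∈ range (L + 1) then poisson s j else 0)
      (∑ j ∈ range (L + 1), poisson s j) := by
    have := hasSum_sum_of_ne_finset_zero
      (f := fun j : ℕ => if j ∈ range (L + 1) then poisson s j else 0) (s := range (L + 1))
      (L := SummationFilter.unconditional ℕ) (fun j hj => if_neg hj)
    rwa [sum_congr rfl (fun j hj => if_pos hj)] at this
  refine hasSum_le (fun j => ?_) h1 h2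
  have hp := poisson_nonneg hs j
  split_ifs with h
  · have : 0 ≤ (j : ℝ) * poisson s j / (L + 1) := by positivity
    linarith
  · have hj : (L : ℝ) + 1 ≤ j := by
      have : L + 1 ≤ j := by simpa using h
      exact_mod_cast this
    rw [sub_nonpos, le_div_iff₀ hL]
    nlinarith

lemma ent_term_le {p : ℝ} (h0 : 0 ≤ p) (h1 : p ≤ 1) : |-(p * Real.log p)| ≤ 2 * √p := by
  rcases h0.eq_or_lt with h | h
  · simp [← h]
  · have hs : 0 < √p := Real.sqrt_pos.2 h
    have hs1 : √p ≤ 1 := Real.sqrt_le_one.2 h1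
    have h2 := Real.abs_log_mul_self_lt (√p) hs hs1
    have h3 : p * Real.log p = 2 * √p * (Real.log √p * √p) := by
      rw [Real.log_sqrt h0]
      have : √p * √p = p := Real.mul_self_sqrt h0
      linear_combination (-Real.log p) * this
    rw [abs_neg, h3, abs_mul, abs_of_pos (by positivity : 0 < 2 * √p)]
    nlinarith

lemma poisson_le_one {s : ℝ} (hs : 0 ≤ s) (j : ℕ) : poisson s j ≤ 1 :=
  le_hasSum (hasSum_poisson hs) j (fun i _ => poisson_nonneg hs i)

lemma ent_bound {s : ℝ} (hs : s ∈ Set.Icc (0 : ℝ) 1) (j : ℕ) :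
    ‖-(poisson s j * Real.log (poisson s j))‖ ≤ 2 * Real.exp 2 * (1 / 2) ^ j := by
  refine (ent_term_le (poisson_nonneg hs.1 j) (poisson_le_one hs.1 j)).trans ?_
  rw [mul_assoc]
  refine mul_le_mul_of_nonneg_left ?_ (by norm_num)
  rw [Real.sqrt_le_left (by positivity)]
  have h1 : poisson s j ≤ 1 / (j.factorial : ℝ) := by
    unfold poisson
    refine div_le_div_of_nonneg_right ?_ (by positivity)
    exact mul_le_one₀ (Real.exp_le_one_iff.2 (by linarith [hs.1])) (pow_nonneg hs.1 j)
      (pow_le_one₀ hs.1 hs.2)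
  have h2 := Real.pow_div_factorial_le_exp (x := 4) (by norm_num) j
  have h3 : (Real.exp 2 * (1 / 2) ^ j) ^ 2 = Real.exp 4 / 4 ^ j := by
    rw [mul_pow, ← Real.exp_nat_mul, ← pow_mul, mul_comm j 2, pow_mul]
    rw [div_eq_mul_inv (Real.exp 4), ← inv_pow]
    norm_num
  rw [h3, le_div_iff₀ (by positivity)]
  calc poisson s j * 4 ^ j ≤ 1 / (j.factorial : ℝ) * 4 ^ j :=
        mul_le_mul_of_nonneg_right h1 (by positivity)
    _ = 4 ^ j / (j.factorial : ℝ) := by ring
    _ ≤ _ := h2

lemma summable_geom : Summable (fun j : ℕ => 2 * Real.exp 2 * (1 / 2 : ℝ) ^ j) :=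
  summable_geometric_two.mul_left _

lemma continuousOn_entropy : ContinuousOn poissonEntropy (Set.Icc 0 1) := by
  refine continuousOn_tsum (fun j => ?_) summable_geom (fun j s hs => ent_bound hs j)
  have hc : Continuous (fun s => poisson s j) := by
    unfold poisson
    fun_prop
  exact (Real.continuous_mul_log.comp hc).neg.continuousOn

lemma entropy_zero : poissonEntropy 0 = 0 := by
  unfold poissonEntropy
  have : ∀ j : ℕ, -(poisson 0 j * Real.log (poisson 0 j)) = 0 := by
    intro j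
    rcases j with _ | j <;> simp [poisson]
  simp [this]

lemma entropy_ge {s : ℝ} (hs : s ∈ Set.Icc (0 : ℝ) 1) : s * (1 - s) ≤ poissonEntropy s := by
  have hsum : Summable (fun j : ℕ => -(poisson s j * Real.log (poisson s j))) :=
    Summable.of_norm_bounded summable_geom (ent_bound hs)
  have h1 := hsum.le_tsum 0 (fun j _ => by
    have := Real.log_nonpos (poisson_nonneg hs.1 j) (poisson_le_one hs.1 j)
    have := poisson_nonneg hs.1 j
    nlinarith)
  refine le_trans ?_ h1
  have h2 : -(poisson s 0 * Real.log (poisson s 0)) = s * Real.exp (-s) := by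
    simp [poisson]
    ring
  rw [h2]
  refine mul_le_mul_of_nonneg_left ?_ hs.1
  linarith [Real.add_one_le_exp (-s)]

lemma exists_entropic_time (k N : ℕ) (hk : 8 ≤ k) (hN1 : 1 ≤ N) (hN : N ≤ 4) :
    ∃ t : ℝ, 0 ≤ t ∧ t ≤ 4 ∧ (k : ℝ) * poissonEntropy (t / k) = Real.log N := by
  have hk' : (8 : ℝ) ≤ k := by exact_mod_cast hk
  have hk0 : (0 : ℝ) < k := by linarith
  have hc : ContinuousOn (fun t : ℝ => (k : ℝ) * poissonEntropy (t / k)) (Set.Icc 0 4) := by
    refine continuousOn_const.mul (continuousOn_entropy.comp (by fun_prop) ?_)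
    intro t ht
    exact ⟨div_nonneg ht.1 hk0.le, by rw [div_le_one hk0]; linarith [ht.2]⟩
  have h0 : (k : ℝ) * poissonEntropy (0 / k) ≤ Real.log N := by
    rw [zero_div, entropy_zero, mul_zero]
    exact Real.log_nonneg (by exact_mod_cast hN1)
  have h4 : Real.log N ≤ (k : ℝ) * poissonEntropy (4 / k) := by
    have h1 : Real.log N ≤ 2 := by
      have : Real.log N ≤ Real.log 4 :=
        Real.log_le_log (by exact_mod_cast hN1) (by exact_mod_cast hN)
      have h2 : Real.log 4 = 2 * Real.log 2 := by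
        rw [show (4 : ℝ) = 2 ^ 2 by norm_num, Real.log_pow]
        norm_num
      linarith [Real.log_two_lt_d9]
    have h5 : (4 : ℝ) / k ≤ 1 / 2 := by
      rw [div_le_iff₀ hk0]
      linarith
    have h2 := entropy_ge (s := 4 / k) ⟨by positivity, by linarith⟩
    have h3 : (k : ℝ) * (4 / k * (1 - 4 / k)) = 4 * (1 - 4 / k) := by field_simp
    have := mul_le_mul_of_nonneg_left h2 hk0.le
    linarith
  obtain ⟨t, ht, hteq⟩ := intermediate_value_Icc (by norm_num : (0 : ℝ) ≤ 4) hc ⟨h0, h4⟩
  exact ⟨t, ht.1, ht.2, hteq⟩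

lemma summable_entropy {s : ℝ} (hs : 0 ≤ s) :
    Summable (fun j : ℕ => -(poisson s j * Real.log (poisson s j))) := by
  refine Summable.of_norm_bounded (summable_geometric_two.mul_left (2 * Real.exp (2 * s)))
    (fun j => ?_)
  refine (ent_term_le (poisson_nonneg hs j) (poisson_le_one hs j)).trans ?_
  rw [mul_assoc]
  refine mul_le_mul_of_nonneg_left ?_ (by norm_num)
  rw [Real.sqrt_le_left (by positivity)]
  have h1 : poisson s j ≤ s ^ j / (j.factorial : ℝ) := by
    unfold poisson
    refine div_le_div_of_nonneg_right ?_ (by positivity)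
    exact mul_le_of_le_one_left (pow_nonneg hs j) (Real.exp_le_one_iff.2 (by linarith))
  have h2 := Real.pow_div_factorial_le_exp (x := 4 * s) (by positivity) j
  have h3 : (Real.exp (2 * s) * (1 / 2) ^ j) ^ 2 = Real.exp (4 * s) / 4 ^ j := by
    rw [mul_pow, ← Real.exp_nat_mul, ← pow_mul, mul_comm j 2, pow_mul]
    rw [div_eq_mul_inv (Real.exp (4 * s)), ← inv_pow]
    congr 2
    · push_cast
      ring
    · norm_num
  rw [h3, le_div_iff₀ (by positivity)]
  calc poisson s j * 4 ^ j ≤ s ^ j / (j.factorial : ℝ) * 4 ^ j :=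
        mul_le_mul_of_nonneg_right h1 (by positivity)
    _ = (4 * s) ^ j / (j.factorial : ℝ) := by rw [mul_pow]; ring
    _ ≤ _ := h2

lemma poisson_le_exp {s : ℝ} (hs : 1 / 2 ≤ s) (j : ℕ) : poisson s j ≤ Real.exp (-(1 / 2)) := by
  have hs0 : 0 < s := by linarith
  rcases j with _ | j
  · simp only [poisson, pow_zero, Nat.factorial_zero, Nat.cast_one, mul_one, div_one]
    exact Real.exp_le_exp.2 (by linarith)
  · have h1 : ∑ i ∈ ({j, j + 1, j + 1 + 1} : Finset ℕ), poisson s i ≤ 1 :=
      sum_le_hasSum _ (fun i _ => poisson_nonneg hs0.le i) (hasSum_poisson hs0.le)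
    rw [sum_insert (by simp; omega), sum_insert (by simp), sum_singleton] at h1
    have h2 := poisson_succ s j
    have h3 := poisson_succ s (j + 1)
    push_cast at h2 h3
    have hp := poisson_nonneg hs0.le (j + 1)
    have hj : (0 : ℝ) ≤ j := Nat.cast_nonneg j
    have h4 : poisson s (j + 1) ≤ poisson s j + poisson s (j + 1 + 1) := by
      have h5 : 0 < s * ((j : ℝ) + 1 + 1) := by positivity
      refine le_of_mul_le_mul_left ?_ h5
      have h6 : s * ((j : ℝ) + 1 + 1) * (poisson s j + poisson s (j + 1 + 1)) =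
          (((j : ℝ) + 1 + 1) * (j + 1) + s * s) * poisson s (j + 1) := by
        linear_combination (-((j : ℝ) + 1 + 1)) * h2 + s * h3
      rw [h6]
      refine mul_le_mul_of_nonneg_right ?_ hp
      nlinarith [sq_nonneg (s - (j + 2) / 2)]
    linarith [Real.add_one_le_exp (-(1 / 2 : ℝ))]

lemma entropy_ge_half {s : ℝ} (hs : 1 / 2 ≤ s) : 1 / 2 ≤ poissonEntropy s := by
  have hs0 : 0 ≤ s := by linarith
  have h1 : HasSum (fun j => 1 / 2 * poisson s j) (1 / 2 * 1) := (hasSum_poisson hs0).mul_left _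
  rw [mul_one] at h1
  refine hasSum_le (fun j => ?_) h1 (summable_entropy hs0).hasSum
  rcases (poisson_nonneg hs0 j).eq_or_lt with h | h
  · simp [← h]
  · have h2 : Real.log (poisson s j) ≤ -(1 / 2) :=
      (Real.log_le_iff_le_exp h).2 (poisson_le_exp hs j)
    nlinarith

lemma entropic_time_le (k N : ℕ) (hk : 8 ≤ k) (hN1 : 1 ≤ N) (hN : N ≤ 4) {t : ℝ} (ht : 0 ≤ t)
    (h : (k : ℝ) * poissonEntropy (t / k) = Real.log N) : t ≤ 4 := by
  have hk' : (8 : ℝ) ≤ k := by exact_mod_cast hk
  have hk0 : (0 : ℝ) < k := by linarith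
  have h1 : Real.log N ≤ 2 := by
    have : Real.log N ≤ Real.log 4 :=
      Real.log_le_log (by exact_mod_cast hN1) (by exact_mod_cast hN)
    have h2 : Real.log 4 = 2 * Real.log 2 := by
      rw [show (4 : ℝ) = 2 ^ 2 by norm_num, Real.log_pow]
      norm_num
    linarith [Real.log_two_lt_d9]
  rcases le_total (t / k) (1 / 2) with h2 | h2
  · have h3 := entropy_ge (s := t / k) ⟨by positivity, by linarith⟩
    have h4 : (k : ℝ) * (t / k * (1 - t / k)) = t * (1 - t / k) := by field_simp
    have h5 := mul_le_mul_of_nonneg_left h3 hk0.le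
    nlinarith
  · have h3 := entropy_ge_half h2
    nlinarith

section Walk

variable {G : Type} [Group G] [Fintype G] [DecidableEq G] {k : ℕ}

/-- Lower bound on the distance to uniformity from a set containing all short products. -/
lemma tv_lower (hk : 0 < k) (Z : Fin k → G) {t : ℝ} (ht : 0 ≤ t) (L : ℕ) (S : Finset G)
    (hS : ∀ l ≤ L, ∀ w : Fin l → Fin k, (List.ofFn (fun j => Z (w j))).prod ∈ S) :
    1 - t / (L + 1) - (S.card : ℝ) / Fintype.card G ≤ tvDist Z t := by
  have hk' : (0 : ℝ) < k := by exact_mod_cast hk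
  set c : ℕ → G → ℝ := fun l g =>
    ((univ.filter (fun w : Fin l → Fin k => (List.ofFn (fun j => Z (w j))).prod = g)).card : ℝ) /
      (k : ℝ) ^ l with hc
  have hc0 : ∀ l g, 0 ≤ c l g := fun l g => by positivity
  have hcT : ∀ (l : ℕ) (T : Finset G),
      (∀ w : Fin l → Fin k, (List.ofFn (fun j => Z (w j))).prod ∈ T) → ∑ g ∈ T, c l g = 1 := by
    intro l T hT
    simp only [hc]
    rw [← sum_div, ← Nat.cast_sum, ← card_eq_sum_card_fiberwise (fun w _ => hT w)]
    simp only [card_univ, Fintype.card_pi, Fintype.card_fin, prod_const]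
    push_cast
    exact div_self (by positivity)
  have hc1 : ∀ l g, c l g ≤ 1 := by
    intro l g
    rw [← hcT l univ (fun _ => mem_univ _)]
    exact single_le_sum (fun g _ => hc0 l g) (mem_univ g)
  have hsm : ∀ g, Summable (fun l => poisson t l * c l g) := fun g =>
    Summable.of_nonneg_of_le (fun l => mul_nonneg (poisson_nonneg ht l) (hc0 l g))
      (fun l => mul_le_of_le_one_right (poisson_nonneg ht l) (hc1 l g)) (hasSum_poisson ht).summable
  have hlaw : ∀ T : Finset G, HasSum (fun l => poisson t l * ∑ g ∈ T, c l g)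
      (∑ g ∈ T, walkLaw Z t g) := by
    intro T
    simp only [mul_sum]
    exact hasSum_sum (fun g _ => (hsm g).hasSum)
  have htot : ∑ g, walkLaw Z t g = 1 := by
    have h1 := hlaw univ
    simp only [hcT _ univ (fun _ => mem_univ _), mul_one] at h1
    exact h1.unique (hasSum_poisson ht)
  have hSm : 1 - t / (L + 1) ≤ ∑ g ∈ S, walkLaw Z t g := by
    refine (poisson_head ht L).trans ?_
    refine le_trans (le_of_eq ?_) (sum_le_hasSum (range (L + 1)) (fun l _ =>
      mul_nonneg (poisson_nonneg ht l) (sum_nonneg (fun g _ => hc0 l g))) (hlaw S))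
    refine sum_congr rfl (fun l hl => ?_)
    rw [hcT l S (hS l (by simpa [Nat.lt_succ_iff] using hl)), mul_one]
  have hn : (0 : ℝ) < Fintype.card G := by exact_mod_cast Fintype.card_pos
  set f : G → ℝ := fun g => walkLaw Z t g - 1 / (Fintype.card G : ℝ) with hf
  have hf0 : ∑ g, f g = 0 := by
    simp only [hf, sum_sub_distrib, htot, sum_const, card_univ, nsmul_eq_mul]
    field_simp
    ring
  have hfS : ∑ g ∈ S, f g = ∑ g ∈ S, walkLaw Z t g - (S.card : ℝ) / Fintype.card G := by
    simp only [hf, sum_sub_distrib, sum_const, nsmul_eq_mul]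
    ring
  have h1 := sum_add_sum_compl S f
  have h2 := sum_add_sum_compl S (fun g => |f g|)
  have h3 : ∑ g ∈ S, f g ≤ ∑ g ∈ S, |f g| := sum_le_sum (fun g _ => le_abs_self _)
  have h4 : -∑ g ∈ Sᶜ, f g ≤ ∑ g ∈ Sᶜ, |f g| := by
    rw [← sum_neg_distrib]
    exact sum_le_sum (fun g _ => neg_le_abs _)
  unfold tvDist
  change _ ≤ 1 / 2 * ∑ g, |f g|
  linarith

end Walk

open DihedralGroup

/-- The rotation part of a dihedral element. -/
def dval {n : ℕ} : DihedralGroup n → ZMod n
  | r i => i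
  | sr i => i

/-- The signed contribution of a letter. -/
def term {n k : ℕ} (Z : Fin k → DihedralGroup n) : Option (Fin k × Bool) → ZMod n
  | none => 0
  | some (i, true) => dval (Z i)
  | some (i, false) => -dval (Z i)

lemma prod_form {n k : ℕ} (Z : Fin k → DihedralGroup n) (l : List (Fin k)) :
    ∃ M : Multiset (Option (Fin k × Bool)), M.card = l.length ∧
      ((l.map Z).prod = r (M.map (term Z)).sum ∨ (l.map Z).prod = sr (M.map (term Z)).sum) := by
  induction l with
  | nil => exact ⟨0, rfl, Or.inl rfl⟩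
  | cons i l ih =>
    obtain ⟨M, hM, h⟩ := ih
    rw [List.map_cons, List.prod_cons]
    rcases h with h | h
    · refine ⟨some (i, true) ::ₘ M, by simp [hM], ?_⟩
      rw [h, Multiset.map_cons, Multiset.sum_cons]
      rcases hZ : Z i with a | a
      · left
        simp [term, hZ, dval]
      · right
        simp [term, hZ, dval]
    · refine ⟨some (i, false) ::ₘ M, by simp [hM], ?_⟩
      rw [h, Multiset.map_cons, Multiset.sum_cons]
      rcases hZ : Z i with a | a
      · right
        simp [term, hZ, dval, sub_eq_add_neg, add_comm]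
      · left
        simp [term, hZ, dval, sub_eq_add_neg, add_comm]

lemma exists_small_set {n k : ℕ} (Z : Fin k → DihedralGroup n) (L : ℕ) :
    ∃ S : Finset (DihedralGroup n), S.card ≤ 2 * (2 * k + L).choose L ∧
      ∀ l ≤ L, ∀ w : Fin l → Fin k, (List.ofFn (fun j => Z (w j))).prod ∈ S := by
  classical
  let F : Bool × Sym (Option (Fin k × Bool)) L → DihedralGroup n := fun p =>
    if p.1 then r (p.2.1.map (term Z)).sum else sr (p.2.1.map (term Z)).sum
  refine ⟨univ.image F, ?_, ?_⟩
  · refine card_image_le.trans (le_of_eq ?_)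
    rw [card_univ, Fintype.card_prod, Sym.card_sym_eq_choose]
    simp only [Fintype.card_bool, Fintype.card_option, Fintype.card_prod, Fintype.card_fin]
    congr 2
    omega
  · intro l hl w
    obtain ⟨M, hM, h⟩ := prod_form Z (List.ofFn w)
    rw [List.length_ofFn] at hM
    rw [List.map_ofFn] at h
    have hcard : (M + Multiset.replicate (L - l) none).card = L := by
      simp [hM]
      omega
    have hsum : ((M + Multiset.replicate (L - l) none).map (term Z)).sum =
        (M.map (term Z)).sum := by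
      simp [term]
    rcases h with h | h
    · refine mem_image.2 ⟨(true, ⟨_, hcard⟩), mem_univ _, ?_⟩
      simp only [F, if_true, hsum]
      exact h.symm
    · refine mem_image.2 ⟨(false, ⟨_, hcard⟩), mem_univ _, ?_⟩
      simp only [F, Bool.false_eq_true, if_false, hsum]
      exact h.symm

lemma card_abelianization_le (n : ℕ) [NeZero n] :
    Nat.card (Abelianization (DihedralGroup n)) ≤ 4 := by
  set a := Abelianization.of (r 1 : DihedralGroup n) with ha
  set b := Abelianization.of (sr 0 : DihedralGroup n) with hb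
  have ha2 : a ^ 2 = 1 := by
    have h2 : (sr 0 : DihedralGroup n) * r 1 * sr 0 * r 1 = 1 := by simp
    have h3 : (sr 0 : DihedralGroup n) * sr 0 = 1 := by simp
    have h4 := congrArg Abelianization.of h2
    have h5 := congrArg Abelianization.of h3
    simp only [map_mul, map_one, ← ha, ← hb] at h4 h5
    calc a ^ 2 = (b * b) * (a * a) := by rw [h5, one_mul, sq]
      _ = b * a * b * a := by simp only [mul_comm, mul_left_comm]
      _ = 1 := h4
  have hr : ∀ i : ZMod n, Abelianization.of (r i : DihedralGroup n) = a ^ (i.val % 2) := by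
    intro i
    have : (r i : DihedralGroup n) = r 1 ^ i.val := by rw [r_one_pow, ZMod.natCast_zmod_val]
    rw [this, map_pow, ← ha, pow_eq_pow_mod _ ha2]
  let F : Fin 2 × Fin 2 → Abelianization (DihedralGroup n) := fun p => b ^ (p.1 : ℕ) * a ^ (p.2 : ℕ)
  have hF : Function.Surjective F := by
    intro x
    obtain ⟨g, rfl⟩ := QuotientGroup.mk_surjective (s := commutator (DihedralGroup n)) x
    change ∃ p, F p = Abelianization.of g
    rcases g with i | i
    · exact ⟨(0, ⟨i.val % 2, Nat.mod_lt _ two_pos⟩), by simp [F, hr]⟩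
    · refine ⟨(1, ⟨i.val % 2, Nat.mod_lt _ two_pos⟩), ?_⟩
      have : (sr i : DihedralGroup n) = sr 0 * r i := by simp
      rw [this, map_mul, hr]
      simp [F, hb]
  simpa using Nat.card_le_card_of_surjective F hF

lemma choose_le_exp (a L : ℕ) (hL : 0 < L) :
    ((a + L).choose L : ℝ) ≤ (Real.exp 1 * (1 + (a : ℝ) / L)) ^ L := by
  have hL' : (0 : ℝ) < L := by exact_mod_cast hL
  have h1 : ((a + L).choose L : ℝ) ≤ ((a + L : ℕ) : ℝ) ^ L / (L.factorial : ℝ) :=
    Nat.choose_le_pow_div L (a + L)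
  have h2 := Real.pow_div_factorial_le_exp (x := (L : ℝ)) hL'.le L
  have h3 : ((a + L : ℕ) : ℝ) = (1 + (a : ℝ) / L) * L := by
    push_cast
    field_simp
    ring
  rw [h3, mul_pow, mul_div_assoc] at h1
  rw [mul_pow, ← Real.exp_nat_mul, mul_one, mul_comm]
  exact h1.trans (mul_le_mul_of_nonneg_left h2 (by positivity))

end Pool.Agent.Lib.MP_d87a8f_pr
end

-- part Pool.Agent.Lib.MP_d87a8f_pr.Asymp
section

/-!
Asymptotics along the dihedral groups of order `2 ^ (2 ^ M)` with `M * 2 ^ M` generators.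
-/

open Finset Filter Topology

namespace Pool.Agent.Lib.MP_d87a8f_pr

lemma card_eq (M : ℕ) :
    Fintype.card (DihedralGroup (2 ^ (2 ^ M - 1) - 1 + 1)) = 2 ^ (2 ^ M) := by
  rw [DihedralGroup.card, Nat.sub_add_cancel Nat.one_le_two_pow, ← pow_succ',
    Nat.sub_add_cancel Nat.one_le_two_pow]

lemma log_card (M : ℕ) :
    Real.log (Fintype.card (DihedralGroup (2 ^ (2 ^ M - 1) - 1 + 1))) = 2 ^ M * Real.log 2 := by
  rw [card_eq]
  push_cast
  rw [Real.log_pow]
  push_cast
  rfl

lemma log_k_ge {M : ℕ} (hM : 1 ≤ M) : M * Real.log 2 ≤ Real.log ((M * 2 ^ M : ℕ) : ℝ) := by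
  rw [← Real.log_pow]
  refine Real.log_le_log (by positivity) ?_
  exact_mod_cast Nat.le_mul_of_pos_left _ hM

lemma log_k_le {M : ℕ} (hM : 1 ≤ M) : Real.log ((M * 2 ^ M : ℕ) : ℝ) ≤ 2 * M * Real.log 2 := by
  have : 2 * (M : ℝ) * Real.log 2 = Real.log (2 ^ M * 2 ^ M) := by
    rw [← pow_add, Real.log_pow]
    push_cast
    ring
  rw [this]
  have hM' : (0 : ℝ) < M := by exact_mod_cast hM
  push_cast
  refine Real.log_le_log (by positivity) ?_
  refine mul_le_mul_of_nonneg_right ?_ (by positivity)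
  exact_mod_cast Nat.lt_two_pow_self.le

lemma eventually_poly_le_exp {ε : ℝ} (hε : 0 < ε) :
    ∀ᶠ M : ℕ in atTop, Real.exp 1 * (1 + 2 * (M : ℝ) ^ 2) ≤ Real.exp (ε * M) := by
  have h1 := (isLittleO_pow_exp_pos_mul_atTop 2 hε).def
    (c := 1 / (3 * Real.exp 1)) (by positivity)
  filter_upwards [tendsto_natCast_atTop_atTop.eventually h1, eventually_ge_atTop 1] with M hM hM1
  rw [Real.norm_of_nonneg (by positivity), Real.norm_of_nonneg (by positivity),
    one_div, ← div_eq_inv_mul, le_div_iff₀ (by positivity)] at hM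
  have h2 : (1 : ℝ) ≤ M := by exact_mod_cast hM1
  have h3 : (1 : ℝ) ≤ (M : ℝ) ^ 2 := one_le_pow₀ h2
  have h4 := Real.exp_pos 1
  nlinarith

lemma eventually_exp_le {δ : ℝ} (hδ : 0 < δ) :
    ∀ᶠ M : ℕ in atTop, 2 * Real.exp (-(2 ^ M * Real.log 2 / 2)) ≤ δ := by
  have h1 : Tendsto (fun M : ℕ => (2 : ℝ) ^ M * Real.log 2 / 2) atTop atTop :=
    ((tendsto_pow_atTop_atTop_of_one_lt one_lt_two).atTop_mul_const
      (Real.log_pos one_lt_two)).atTop_div_const two_pos
  have h2 := (Real.tendsto_exp_neg_atTop_nhds_zero.comp h1).const_mul 2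
  rw [mul_zero] at h2
  exact (h2.eventually (ge_mem_nhds hδ))

theorem tv_eventually {C δ : ℝ} (hC : 0 < C) (hδ : 0 < δ) :
    ∀ᶠ M : ℕ in atTop, ∀ t : ℝ, 0 ≤ t → t ≤ 4 →
      ∀ Z : Fin (M * 2 ^ M) → DihedralGroup (2 ^ (2 ^ M - 1) - 1 + 1),
        1 - δ ≤ tvDist Z (C * max t
          (Real.log (Fintype.card (DihedralGroup (2 ^ (2 ^ M - 1) - 1 + 1))) /
            Real.log ((M * 2 ^ M : ℕ) : ℝ))) := by
  have hl2 : 0 < Real.log 2 := Real.log_pos one_lt_two
  set D : ℝ := 4 * C / δ + 1 with hD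
  have hD1 : 1 ≤ D := by
    have : 0 ≤ 4 * C / δ := by positivity
    linarith
  have hD0 : 0 < D := by linarith
  filter_upwards [eventually_poly_le_exp (ε := Real.log 2 / (4 * D)) (by positivity),
    eventually_exp_le (half_pos hδ), eventually_ge_atTop 3] with M h1 h2 hM t ht ht4 Z
  have hM' : (3 : ℝ) ≤ M := by exact_mod_cast hM
  have hM0 : (0 : ℝ) < M := by linarith
  set x : ℝ := 2 ^ M / M with hx
  have hx2 : 2 ≤ x := by
    rw [hx, le_div_iff₀ hM0]
    have : 2 * M ≤ 2 ^ M := by
      obtain ⟨a, rfl⟩ := Nat.exists_eq_add_of_le' (show 1 ≤ M by omega)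
      rw [pow_succ']
      exact Nat.mul_le_mul_left 2 Nat.lt_two_pow_self
    exact_mod_cast this
  have hxM : x * M = 2 ^ M := by
    rw [hx]
    field_simp
  set L : ℕ := ⌈D * x⌉₊ with hL
  have hDx : 2 ≤ D * x := by nlinarith
  have hL1 : D * x ≤ L := Nat.le_ceil _
  have hL2 : (L : ℝ) ≤ 2 * (D * x) := by
    have := Nat.ceil_lt_add_one (show 0 ≤ D * x by linarith)
    linarith
  have hL0 : (0 : ℝ) < L := by linarith
  have hLpos : 0 < L := by exact_mod_cast hL0
  obtain ⟨S, hS, hSw⟩ := exists_small_set Z L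
  have hkpos : 0 < M * 2 ^ M := by positivity
  set T : ℝ := max t (Real.log (Fintype.card (DihedralGroup (2 ^ (2 ^ M - 1) - 1 + 1))) /
    Real.log ((M * 2 ^ M : ℕ) : ℝ)) with hT
  have hT0 : 0 ≤ T := ht.trans (le_max_left _ _)
  have hT2 : T ≤ 2 * x := by
    refine max_le (by linarith) ?_
    have h3 := log_k_ge (M := M) (by omega)
    have h4 : 0 < M * Real.log 2 := by positivity
    rw [log_card, div_le_iff₀ (by linarith), ← hxM]
    nlinarith
  refine le_trans ?_ (tv_lower hkpos Z (mul_nonneg hC.le hT0) L S hSw)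
  have e1 : C * T / (L + 1) ≤ δ / 2 := by
    rw [div_le_iff₀ (by positivity)]
    have h3 : δ / 2 * D = 2 * C + δ / 2 := by
      rw [hD]
      field_simp
      ring
    have h4 : δ / 2 * (D * x) ≤ δ / 2 * (L + 1) :=
      mul_le_mul_of_nonneg_left (by linarith) (by positivity)
    have h5 : C * T ≤ C * (2 * x) := mul_le_mul_of_nonneg_left hT2 hC.le
    have h6 : δ / 2 * (D * x) = 2 * C * x + δ / 2 * x := by rw [← mul_assoc, h3]; ring
    have h7 : 0 ≤ δ / 2 * x := by positivity
    linarith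
  have e2 : (S.card : ℝ) / Fintype.card (DihedralGroup (2 ^ (2 ^ M - 1) - 1 + 1)) ≤ δ / 2 := by
    refine le_trans ?_ h2
    have hcard : (Fintype.card (DihedralGroup (2 ^ (2 ^ M - 1) - 1 + 1)) : ℝ) =
        Real.exp (2 ^ M * Real.log 2) := by
      rw [← log_card, Real.exp_log]
      exact_mod_cast Fintype.card_pos
    rw [hcard, div_le_iff₀ (Real.exp_pos _), mul_assoc, ← Real.exp_add]
    have h3 : (S.card : ℝ) ≤ 2 * ((2 * (M * 2 ^ M) + L).choose L : ℝ) := by exact_mod_cast hS
    refine h3.trans (mul_le_mul_of_nonneg_left ((choose_le_exp _ L hLpos).trans ?_) two_pos.le)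
    have h4 : ((2 * (M * 2 ^ M) : ℕ) : ℝ) / L ≤ 2 * (M : ℝ) ^ 2 := by
      rw [div_le_iff₀ hL0]
      push_cast
      rw [← hxM]
      have h5 : x ≤ L := by nlinarith
      have h6 : 0 ≤ (M : ℝ) ^ 2 := by positivity
      nlinarith
    have h5 : Real.exp 1 * (1 + ((2 * (M * 2 ^ M) : ℕ) : ℝ) / L) ≤
        Real.exp (Real.log 2 / (4 * D) * M) :=
      le_trans (mul_le_mul_of_nonneg_left (by linarith) (Real.exp_pos 1).le) h1
    refine (pow_le_pow_left₀ (by positivity) h5 L).trans ?_
    rw [← Real.exp_nat_mul]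
    refine Real.exp_le_exp.2 ?_
    have h6 : (L : ℝ) * (Real.log 2 / (4 * D) * M) ≤ 2 * (D * x) * (Real.log 2 / (4 * D) * M) :=
      mul_le_mul_of_nonneg_right hL2 (by positivity)
    have h7 : 2 * (D * x) * (Real.log 2 / (4 * D) * M) = x * M * Real.log 2 / 2 := by
      field_simp
      ring
    rw [h7, hxM] at h6
    linarith
  linarith

end Pool.Agent.Lib.MP_d87a8f_pr
end
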